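import Pool.Agent.helper88.EF.Defs
import Pool.Agent.helper82.EF.GF
import Pool.Agent.helper1.EF.FN
import Pool.Agent.helper13.EF.DL
import Pool.Agent.helper52.EF.CT
import Pool.Agent.helper23.EF.RS
import Pool.Agent.helper33.EF.RA

/-! # Project EF, module T1: orders divisible by 420 -/

namespace Pool.Agent.helper88.EF

open Finset Pool.Agent.helper76.LP

/-- the statements of the other modules used by `t1` -/
structure T1Deps : Prop where
  gf : ∀ (m D q : ℕ) [NeZero m] [NeZero D] (_ : D ∣ m) (_ : q.Prime) (_ : q ∣ D)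
    (ψ : (ZMod D)ˣ → ℤ) (_ : Tst D q ψ) (B : ℤ) (_ : Bd D (Even m) ψ B),
    ∃ s : ZMod m → ℚ, Ext m D q ψ s ∧ ∀ x, |s x| ≤ B
  func : ∀ (m D q : ℕ) [NeZero m] [NeZero D] (_ : D ∣ m) (c0 c : ZMod m → ℤ)
    (_ : QEq q c0 c) (_ : ∀ x, D ∣ addOrderOf x → addOrderOf x ≠ D → anti c x = 0)
    (ψ : (ZMod D)ˣ → ℤ) (s : ZMod m → ℚ) (_ : Ext m D q ψ s),
    (((∑ z : (ZMod D)ˣ, anti c (emb D m (z : ZMod D)) * ψ z : ℤ) : ℚ)) =
      ∑ x, (anti c0 x : ℚ) * s x
  est_of : ∀ (m D q : ℕ) [NeZero m] [NeZero D] (_ : D ∣ m) (_ : q.Prime) (_ : q ∣ D)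
    (c0 c : ZMod m → ℤ) (_ : QEq q c0 c)
    (_ : ∀ x, D ∣ addOrderOf x → addOrderOf x ≠ D → anti c x = 0)
    (_ : (∑ x, if q ∣ addOrderOf x then |anti c0 x| else 0) ≤ 12),
    Est D q (Even m) (fun z => anti c (emb D m (z : ZMod D)))
  mdv_of_dl : ∀ {G : Type} [CommGroup G] (Γ : ℕ → Subgroup G) (L : List ℕ) (_ : L.Nodup)
    (V : ℕ → Set G) (_ : ∀ p ∈ L, Γ p ≤ Subgroup.closure (V p)) (f : G → ℤ)
    (_ : ∀ v : ℕ → G, (∀ p ∈ L, v p ∈ V p) → ∀ x, dl v L f x = 0), MDv Γ L f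
  dl_erase : ∀ {G : Type} [CommGroup G] (v : ℕ → G) (L : List ℕ) (p : ℕ) (_ : p ∈ L)
    (f : G → ℤ) (x : G), dl v L f x = dl v (L.erase p) f (v p * x) - dl v (L.erase p) f x
  cube_test : ∀ (D q : ℕ) [NeZero D] (L : List ℕ) (_ : (q :: L).Nodup)
    (_ : (q :: L).toFinset = D.primeFactors) (v : ℕ → (ZMod D)ˣ)
    (_ : ∀ p ∈ L, v p ∈ Gam D p) (_ : ∀ p ∈ L, v p ≠ 1)
    (_ : (-1 : (ZMod D)ˣ) ∉ Pl (Gam D) (q :: L) ∨ ∃ p ∈ L, v p * v p ≠ 1) (z : (ZMod D)ˣ),
    ∃ ψ : (ZMod D)ˣ → ℤ, Tst D q ψ ∧ Cub D q L v z ψ ∧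
      ∀ f : (ZMod D)ˣ → ℤ, (∀ x, f (-x) = - f x) → MDv (Gam D) (q :: L) f →
        ∑ x, f x * ψ x = 2 * (Nat.card (Gam D q) : ℤ) * dl v L f z
  bd_one : ∀ (D q : ℕ) [NeZero D] (L : List ℕ) (v : ℕ → (ZMod D)ˣ) (z : (ZMod D)ˣ)
    (ψ : (ZMod D)ˣ → ℤ) (_ : Cub D q L v z ψ) (ev : Prop)
    (_ : ev → Odd D → ∀ (b : Bool) (S S' : Finset ℕ) (ξ : (ZMod D)ˣ), S ⊆ L.toFinset →
      S' ⊆ L.toFinset → ξ ∈ Gam D q →
      (2 : ZMod D) * ((∏ p ∈ S, v p : (ZMod D)ˣ) : ZMod D) =
        ((su b * ξ * ∏ p ∈ S', v p : (ZMod D)ˣ) : ZMod D) →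
      sg b * (-1) ^ (S.card + S'.card) = 1), Bd D ev ψ 1
  gam_cyclic : ∀ (D p : ℕ) [NeZero D] (_ : p.Prime) (_ : p ∣ D),
    ∃ g ∈ Gam D p, Gam D p ≤ Subgroup.closure {g}
  neg_one_not : ∀ (D q : ℕ) [NeZero D] (L : List ℕ) (_ : (q :: L).toFinset = D.primeFactors)
    (_ : (∃ r : ℕ, r.Prime ∧ 3 ≤ r ∧ r * r ∣ D) ∨ 8 ∣ D),
    (-1 : (ZMod D)ˣ) ∉ Pl (Gam D) (q :: L)
  r1 : ∀ (D q : ℕ) [NeZero D] (L : List ℕ) (ev : Prop) (f : (ZMod D)ˣ → ℤ)
    (_ : RHyp D q L ev f) (_ : 7 ≤ q) (_ : q * q ∣ D), MDv (Gam D) L f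

lemma T1_primeFactors {D : ℕ} (hD0 : D ≠ 0) (h420 : 420 ∣ D)
    (hpr : ∀ p ∈ D.primeFactors, p ≤ 7) : D.primeFactors = {2, 3, 5, 7} := by
  ext p
  simp only [Nat.mem_primeFactors, mem_insert, mem_singleton]
  constructor
  · intro h
    have h1 := hpr p (Nat.mem_primeFactors.2 h)
    have h2 := h.1.two_le
    have hp := h.1
    interval_cases p <;> first | omega | (exfalso; revert hp; decide)
  · rintro (rfl | rfl | rfl | rfl)
    · exact ⟨by norm_num, (by norm_num : 2 ∣ 420).trans h420, hD0⟩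
    · exact ⟨by norm_num, (by norm_num : 3 ∣ 420).trans h420, hD0⟩
    · exact ⟨by norm_num, (by norm_num : 5 ∣ 420).trans h420, hD0⟩
    · exact ⟨by norm_num, (by norm_num : 7 ∣ 420).trans h420, hD0⟩

/-- a number all of whose primes are at most 7, a multiple of 420 -/
lemma T1_square {D : ℕ} (hD0 : D ≠ 0) (h420 : 420 ∣ D) (hpr : ∀ p ∈ D.primeFactors, p ≤ 7)
    (h49 : ¬ 49 ∣ D) (hne : D ≠ 420) :
    (∃ r : ℕ, r.Prime ∧ 3 ≤ r ∧ r * r ∣ D) ∨ 8 ∣ D := by
  obtain ⟨e, rfl⟩ := h420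
  have he : e ≠ 1 := by rintro rfl; exact hne rfl
  obtain ⟨p, hp, hpe⟩ := Nat.exists_prime_and_dvd he
  have hpD : p ∈ (420 * e).primeFactors :=
    Nat.mem_primeFactors.2 ⟨hp, hpe.mul_left _, hD0⟩
  rw [T1_primeFactors hD0 (dvd_mul_right _ _) hpr] at hpD
  simp only [mem_insert, mem_singleton] at hpD
  obtain ⟨k, rfl⟩ := hpe
  rcases hpD with rfl | rfl | rfl | rfl
  · right; exact ⟨105 * k, by ring⟩
  · left; exact ⟨3, by norm_num, le_refl _, ⟨140 * k, by ring⟩⟩
  · left; exact ⟨5, by norm_num, by norm_num, ⟨84 * k, by ring⟩⟩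
  · exact absurd ⟨60 * k, by ring⟩ h49

/-- all points have order `D`, a multiple of 420 but not of 49 -/
theorem t1_of (H : T1Deps) (m D : ℕ) [NeZero m] [NeZero D] (hD : D ∣ m) (h420 : 420 ∣ D)
    (hpr : ∀ p ∈ D.primeFactors, p ≤ 7) (c0 c : ZMod m → ℤ)
    (hsm : ∀ x, anti c0 x ≠ 0 → ∀ p : ℕ, p.Prime → p ∣ addOrderOf x → p ≤ 7)
    (hT : TateF (anti c0)) (hI : Inv (anti c0)) (hQ : QEq 7 c0 c)
    (hmax : ∀ x, D ∣ addOrderOf x → addOrderOf x ≠ D → anti c x = 0) :
    MDv (Gam D) [2, 3, 5] (fun z => anti c (emb D m (z : ZMod D))) ∨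
      (¬ 49 ∣ D ∧ (∀ x, anti c0 x ≠ 0 → addOrderOf x = D) ∧ ∑ x, |anti c0 x| ≤ 12) := by
  classical
  have hD0 : D ≠ 0 := NeZero.ne D
  have hpf := T1_primeFactors hD0 h420 hpr
  have h7D : 7 ∣ D := (by norm_num : 7 ∣ 420).trans h420
  have h4D : 4 ∣ D := (by norm_num : 4 ∣ 420).trans h420
  have hL : ((7 : ℕ) :: [2, 3, 5]).toFinset = D.primeFactors := by
    rw [hpf]; decide
  have hnd : ((7 : ℕ) :: [2, 3, 5]).Nodup := by decide
  set f : (ZMod D)ˣ → ℤ := fun z => anti c (emb D m (z : ZMod D)) with hf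
  have hodd : ∀ x, f (-x) = - f x := by
    intro x
    simp only [hf]
    rw [Units.val_neg, emb_neg hD, anti_odd]
  have hmdv : MDv (Gam D) (7 :: [2, 3, 5]) f := by
    refine mdiff m (anti c) (anti_odd c) (hQ.2.1 hT) D hD hmax _ ?_
    intro p hp
    rw [← hL] at hp
    exact List.mem_toFinset.1 hp
  have hle : (∑ x, if 7 ∣ addOrderOf x then |anti c0 x| else 0) ≤ 12 := by
    refine le_trans (sum_le_sum fun x _ => ?_) hI.1
    by_cases h7 : 7 ∣ addOrderOf x
    · have h60 : ¬ addOrderOf x ∣ 60 := fun h => absurd (h7.trans h) (by norm_num)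
      rw [if_pos h7, if_neg h60]
    · rw [if_neg h7]
      split_ifs
      · exact le_refl _
      · exact abs_nonneg _
  have hest := H.est_of m D 7 hD (by norm_num) h7D c0 c hQ hmax hle
  by_cases h49 : 49 ∣ D
  · left
    refine H.r1 D 7 [2, 3, 5] (Even m) f ⟨by norm_num, hnd, hL, ?_, hodd, hmdv, hest⟩ le_rfl h49
    omega
  obtain ⟨g, hg, hgc⟩ := H.gam_cyclic D 5 (by norm_num) ((by norm_num : 5 ∣ 420).trans h420)
  set V : ℕ → Set (ZMod D)ˣ := fun p => if p = 5 then {g} else (Gam D p : Set (ZMod D)ˣ) with hV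
  by_cases hdl : ∀ v : ℕ → (ZMod D)ˣ, (∀ p ∈ [2, 3, 5], v p ∈ V p) → ∀ x, dl v [2, 3, 5] f x = 0
  · left
    refine H.mdv_of_dl (Gam D) [2, 3, 5] (by decide) V ?_ f hdl
    intro p hp
    simp only [List.mem_cons, List.not_mem_nil, or_false] at hp
    rcases hp with rfl | rfl | rfl
    · simp only [hV]
      rw [if_neg (by norm_num)]
      exact Subgroup.subset_closure
    · simp only [hV]
      rw [if_neg (by norm_num)]
      exact Subgroup.subset_closure
    · simp only [hV]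
      rw [if_pos trivial]
      exact hgc
  · right
    push Not at hdl
    obtain ⟨v, hv, z, hz⟩ := hdl
    have hvG : ∀ p ∈ [2, 3, 5], v p ∈ Gam D p := by
      intro p hp
      have h := hv p hp
      simp only [List.mem_cons, List.not_mem_nil, or_false] at hp
      rcases hp with rfl | rfl | rfl
      · simp only [hV] at h
        rw [if_neg (by norm_num)] at h
        exact h
      · simp only [hV] at h
        rw [if_neg (by norm_num)] at h
        exact h
      · simp only [hV] at h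
        rw [if_pos trivial, Set.mem_singleton_iff] at h
        rw [h]; exact hg
    have hv1 : ∀ p ∈ [2, 3, 5], v p ≠ 1 := by
      intro p hp h1
      apply hz
      rw [H.dl_erase v [2, 3, 5] p hp f z, h1, one_mul, sub_self]
    have h1 : (-1 : (ZMod D)ˣ) ∉ Pl (Gam D) (7 :: [2, 3, 5]) ∨
        ∃ p ∈ [2, 3, 5], v p * v p ≠ 1 := by
      by_cases h : D = 420
      · right
        refine ⟨5, by simp, ?_⟩
        intro h5
        have hvg : v 5 = g := by
          have := hv 5 (by simp)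
          simp only [hV] at this
          rw [if_pos trivial, Set.mem_singleton_iff] at this
          exact this
        rw [hvg] at h5
        have hc := card_Gam D 5 (by norm_num) ((by norm_num : 5 ∣ 420).trans h420)
        have h25 : ¬ 5 ^ 2 ∣ D := by rw [h]; norm_num
        rw [if_neg h25] at hc
        have h3 : Nat.card (Gam D 5) ≤ orderOf g := by
          rw [← Nat.card_zpowers, Subgroup.zpowers_eq_closure]
          exact Subgroup.card_le_of_le hgc
        have h4 : orderOf g ≤ 2 := by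
          apply Nat.le_of_dvd (by norm_num)
          rw [orderOf_dvd_iff_pow_eq_one, pow_two]
          exact h5
        omega
      · left
        exact H.neg_one_not D 7 _ hL (T1_square hD0 h420 hpr h49 h)
    obtain ⟨ψ, hT1, hC, hsum⟩ := H.cube_test D 7 [2, 3, 5] hnd hL v hvG hv1 h1 z
    have hB : Bd D (Even m) ψ 1 := by
      apply H.bd_one D 7 [2, 3, 5] v z ψ hC
      intro _ ho
      exfalso
      rw [← Nat.not_even_iff_odd] at ho
      exact ho (even_iff_two_dvd.2 ((by norm_num : 2 ∣ 4).trans h4D))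
    obtain ⟨s, hs, hs1⟩ := H.gf m D 7 hD (by norm_num) h7D ψ hT1 1 hB
    have hfun := H.func m D 7 hD c0 c hQ hmax ψ s hs
    have hcard : Nat.card (Gam D 7) = 6 := by
      rw [card_Gam D 7 (by norm_num) h7D, if_neg]
      norm_num
      exact h49
    have hval : (∑ z : (ZMod D)ˣ, anti c (emb D m (z : ZMod D)) * ψ z : ℤ) =
        12 * dl v [2, 3, 5] f z := by
      have := hsum f hodd hmdv
      rw [hcard] at this
      simp only [hf] at this ⊢
      rw [this]
      norm_num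
    rw [hval] at hfun
    -- lower bound
    have hlow : (12 : ℚ) ≤ ∑ x, (|anti c0 x| : ℤ) * |s x| := by
      have h2 : (12 : ℚ) ≤ |((12 * dl v [2, 3, 5] f z : ℤ) : ℚ)| := by
        rw [← Int.cast_abs]
        have h3 : (1 : ℤ) ≤ |dl v [2, 3, 5] f z| := Int.one_le_abs hz
        have h4 : (12 : ℤ) ≤ |12 * dl v [2, 3, 5] f z| := by
          rw [abs_mul]
          norm_num
          exact h3
        exact_mod_cast h4
      calc (12 : ℚ) ≤ |((12 * dl v [2, 3, 5] f z : ℤ) : ℚ)| := h2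
        _ = |∑ x, (anti c0 x : ℚ) * s x| := by rw [hfun]
        _ ≤ ∑ x, |(anti c0 x : ℚ) * s x| := abs_sum_le_sum_abs _ _
        _ = ∑ x, (|anti c0 x| : ℤ) * |s x| := by
          refine sum_congr rfl fun x _ => ?_
          rw [abs_mul, Int.cast_abs]
    -- comparison of the terms
    have hterm : ∀ x, ((|anti c0 x| : ℤ) : ℚ) * |s x| ≤
        ((if addOrderOf x ∣ 60 then 0 else |anti c0 x| : ℤ) : ℚ) := by
      intro x
      by_cases hx : addOrderOf x ∣ 60
      · rw [if_pos hx]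
        have h0 : s x = 0 := by
          by_contra hne
          have h3 := (hs.supp x hne).1
          exact absurd ((h7D.trans h3).trans hx) (by norm_num)
        rw [h0]; simp
      · rw [if_neg hx]
        have h0 : (0 : ℚ) ≤ ((|anti c0 x| : ℤ) : ℚ) := by exact_mod_cast abs_nonneg _
        have h3 := hs1 x
        push_cast at h3 h0 ⊢
        nlinarith
    have hup : (∑ x, ((if addOrderOf x ∣ 60 then 0 else |anti c0 x| : ℤ) : ℚ)) ≤ 12 := by
      have := hI.1
      exact_mod_cast this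
    have heq : (∑ x, (((if addOrderOf x ∣ 60 then 0 else |anti c0 x| : ℤ) : ℚ) -
        ((|anti c0 x| : ℤ) : ℚ) * |s x|)) = 0 := by
      apply le_antisymm
      · rw [sum_sub_distrib]; linarith
      · exact sum_nonneg fun x _ => sub_nonneg.2 (hterm x)
    have heach := (sum_eq_zero_iff_of_nonneg (fun x _ => sub_nonneg.2 (hterm x))).1 heq
    have h12 : (∑ x, if addOrderOf x ∣ 60 then 0 else |anti c0 x|) = 12 := by
      apply le_antisymm hI.1
      have h5 : (12 : ℚ) ≤ ∑ x, ((if addOrderOf x ∣ 60 then 0 else |anti c0 x| : ℤ) : ℚ) :=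
        hlow.trans (sum_le_sum fun x _ => hterm x)
      exact_mod_cast h5
    have h60 := hI.2 h12
    refine ⟨h49, ?_, ?_⟩
    · intro x hx
      have hx60 : ¬ addOrderOf x ∣ 60 := fun h => hx (h60 x h)
      have h6 := heach x (mem_univ x)
      rw [if_neg hx60] at h6
      have h7 : ((|anti c0 x| : ℤ) : ℚ) ≠ 0 := by
        exact_mod_cast abs_ne_zero.2 hx
      have h8 : |s x| = 1 := by
        have : ((|anti c0 x| : ℤ) : ℚ) * (1 - |s x|) = 0 := by linarith
        rcases mul_eq_zero.1 this with h | h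
        · exact absurd h h7
        · linarith
      have hsx : s x ≠ 0 := by
        intro h; rw [h, abs_zero] at h8; norm_num at h8
      obtain ⟨hDx, hD7⟩ := hs.supp x hsx
      by_contra hne
      obtain ⟨r, hr⟩ := hDx
      have hr1 : r ≠ 1 := by rintro rfl; exact hne (by rw [hr, mul_one])
      obtain ⟨p, hp, hpr'⟩ := Nat.exists_prime_and_dvd hr1
      have hDp : D * p ∣ addOrderOf x := by rw [hr]; exact mul_dvd_mul_left D hpr'
      have hpo : p ∣ addOrderOf x := (dvd_mul_left p D).trans hDp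
      have hp7 : p ≤ 7 := hsm x hx p hp hpo
      have hpne : p ≠ 7 := by rintro rfl; exact hD7 hDp
      have hpD : p ∣ D := by
        have h2 := hp.two_le
        have : p ∈ D.primeFactors := by
          rw [hpf]
          simp only [mem_insert, mem_singleton]
          interval_cases p <;> first | omega | (exfalso; revert hp; decide)
        exact Nat.dvd_of_mem_primeFactors this
      have hm := hs.mul p hp hpne x hDp (Or.inl hpD)
      have h9 := hs1 ((p : ZMod m) * x)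
      have hp2 : (2 : ℚ) ≤ (p : ℚ) := by exact_mod_cast hp.two_le
      rw [hm, abs_div, Nat.abs_cast, div_eq_iff (by positivity)] at h8
      push_cast at h9
      linarith
    · have h10 : (∑ x, |anti c0 x|) = ∑ x, if addOrderOf x ∣ 60 then 0 else |anti c0 x| := by
        refine sum_congr rfl fun x _ => ?_
        split_ifs with h
        · rw [h60 x h, abs_zero]
        · rfl
      rw [h10]
      exact hI.1

/-- all the statements of `T1Deps` hold -/
theorem t1Deps : T1Deps where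
  gf := gf
  func := func
  est_of := est_of
  mdv_of_dl := mdv_of_dl
  dl_erase := dl_erase
  cube_test := cube_test
  bd_one := bd_one
  gam_cyclic := gam_cyclic
  neg_one_not := neg_one_not
  r1 := r1

/-- all points have order `D`, a multiple of 420 but not of 49 -/
theorem t1 (m D : ℕ) [NeZero m] [NeZero D] (hD : D ∣ m) (h420 : 420 ∣ D)
    (hpr : ∀ p ∈ D.primeFactors, p ≤ 7) (c0 c : ZMod m → ℤ)
    (hsm : ∀ x, anti c0 x ≠ 0 → ∀ p : ℕ, p.Prime → p ∣ addOrderOf x → p ≤ 7)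
    (hT : TateF (anti c0)) (hI : Inv (anti c0)) (hQ : QEq 7 c0 c)
    (hmax : ∀ x, D ∣ addOrderOf x → addOrderOf x ≠ D → anti c x = 0) :
    MDv (Gam D) [2, 3, 5] (fun z => anti c (emb D m (z : ZMod D))) ∨
      (¬ 49 ∣ D ∧ (∀ x, anti c0 x ≠ 0 → addOrderOf x = D) ∧ ∑ x, |anti c0 x| ≤ 12) :=
  t1_of t1Deps m D hD h420 hpr c0 c hsm hT hI hQ hmax

end Pool.Agent.helper88.EF
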